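import Pool.Agent.H79.RV.All

/-!
# Almost everywhere convergence of hyperbolic Riesz means: one logarithm of the amplitude
-/

open MeasureTheory FourierTransform Filter Topology ENNReal

namespace Pool.Agent.Results.MP_a7284e_an.ConvergenceAmplitudes

/-- The Euclidean plane `ℝ²`. It is a definition and not an abbreviation, with the standard
structures of `EuclideanSpace ℝ (Fin 2)` repeated below, only to keep printed terms short. -/
def Plane : Type := EuclideanSpace ℝ (Fin 2)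

/-- the Euclidean norm -/
noncomputable instance : NormedAddCommGroup Plane :=
  PiLp.normedAddCommGroup 2 fun _ : Fin 2 => ℝ

/-- the Euclidean inner product -/
noncomputable instance : InnerProductSpace ℝ Plane := PiLp.innerProductSpace fun _ : Fin 2 => ℝ

/-- the Borel sets -/
instance : MeasurableSpace Plane := WithLp.measurableSpace 2 (Fin 2 → ℝ)

instance : BorelSpace Plane := (inferInstance : BorelSpace (EuclideanSpace ℝ (Fin 2)))

instance : FiniteDimensional ℝ Plane :=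
  (inferInstance : FiniteDimensional ℝ (EuclideanSpace ℝ (Fin 2)))

/-- the coordinates -/
def coord (x : Plane) (i : Fin 2) : ℝ := WithLp.ofLp x i

/-- The square integrable functions on the plane. -/
abbrev L2Plane : Type := Lp ℂ 2 (volume : Measure Plane)

/-- The Fourier transform of a square integrable function. -/
noncomputable def hat (f : L2Plane) : L2Plane := (𝓕 f : L2Plane)

/-- The symbol `m(ξ) = (1 - s⁻² ξ₁² ξ₂²)_+ ^ lam` of the hyperbolic Riesz mean. -/
noncomputable def symbol (lam s : ℝ) (ξ : Plane) : ℝ :=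
  (max (1 - s⁻¹ ^ 2 * coord ξ 0 ^ 2 * coord ξ 1 ^ 2) 0) ^ lam

/-- `g` is the hyperbolic Riesz mean of `f`: the Fourier transform of `g` is the symbol times the
Fourier transform of `f`. -/
def IsMean (lam s : ℝ) (f g : L2Plane) : Prop :=
  ∀ᵐ ξ : Plane, hat g ξ = symbol lam s ξ * hat f ξ

/-- `w` is a version of the hyperbolic Riesz means of `f` that is continuous in the parameter:
`w s` represents the mean with parameter `s` for every real `s > 0`, and for almost every `x` the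
function `s ↦ w s x` is continuous on `(0, ∞)`. -/
def IsVersion (lam : ℝ) (f : L2Plane) (w : ℝ → Plane → ℂ) : Prop :=
  (∀ s, 0 < s → ∃ g : L2Plane, IsMean lam s f g ∧ ∀ᵐ x : Plane, w s x = g x) ∧
    ∀ᵐ x : Plane, ContinuousOn (fun s => w s x) (Set.Ioi 0)

/-- The Haar function of the dyadic interval `[k / 2 ^ j, (k + 1) / 2 ^ j)`, where `p = (j, k)`:
it is `2 ^ (j / 2)` on the left half, `- 2 ^ (j / 2)` on the right half and zero elsewhere. -/
noncomputable def haar (p : ℤ × ℤ) (t : ℝ) : ℝ :=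
  if (p.2 : ℝ) ≤ (2 : ℝ) ^ p.1 * t ∧ (2 : ℝ) ^ p.1 * t < p.2 + 1 / 2 then
    (2 : ℝ) ^ ((p.1 : ℝ) / 2)
  else if (p.2 : ℝ) + 1 / 2 ≤ (2 : ℝ) ^ p.1 * t ∧ (2 : ℝ) ^ p.1 * t < p.2 + 1 then
    -(2 : ℝ) ^ ((p.1 : ℝ) / 2)
  else 0

/-- The Haar coefficient `⟨f, h_p ⊗ h_r⟩` of `f` for the dyadic intervals `p`, `r`. -/
noncomputable def coef (f : L2Plane) (p r : ℤ × ℤ) : ℂ :=
  ∫ x : Plane, f x * ((haar p (coord x 0) * haar r (coord x 1) : ℝ) : ℂ)

/-- The amplitude of `f` on the rectangle `p × r`: `|⟨f, h_p ⊗ h_r⟩|` divided by the square root of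
the area `2 ^ (-(p.1 + r.1))` of the rectangle. -/
noncomputable def amplitude (f : L2Plane) (p r : ℤ × ℤ) : ℝ :=
  (2 : ℝ) ^ (((p.1 + r.1 : ℤ) : ℝ) / 2) * ‖coef f p r‖

/-- The sum over all dyadic rectangles `R = p × r` of
`|⟨f, h_p ⊗ h_r⟩| ^ 2 * (1 + log⁺ (1 / a_R)) ^ β`, where `a_R` is the amplitude (the term of a
rectangle with `a_R = 0` is `0`). -/
noncomputable def logSum (β : ℝ) (f : L2Plane) : ℝ≥0∞ :=
  ∑' p : ℤ × ℤ, ∑' r : ℤ × ℤ, ENNReal.ofReal
    (‖coef f p r‖ ^ 2 * (1 + max 0 (Real.log (1 / amplitude f p r))) ^ β)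

theorem isVersion_of {lam : ℝ} (hl0 : 0 < lam) (f : L2Plane) {v : ℝ → Plane → ℂ}
    (h1 : ∀ t, (v t : H73.Hyp.E2 → ℂ) =ᵐ[volume] H73.Hyp.Ph lam hl0 f t)
    (h2 : ∀ᵐ x : H73.Hyp.E2, Continuous fun t => v t x) :
    IsVersion lam f fun s => v (Real.logb 2 s) := by
  refine ⟨?_, ?_⟩
  · intro s hs
    refine ⟨H73.Hyp.Rz lam hl0 s f, H73.Hyp.Rz_coe hl0 s f, ?_⟩
    have h := h1 (Real.logb 2 s)
    have e : H73.Hyp.Ph lam hl0 f (Real.logb 2 s) = H73.Hyp.Rz lam hl0 s f := by
      unfold H73.Hyp.Ph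
      rw [Real.rpow_logb two_pos (by norm_num) hs]
    rw [e] at h
    exact h
  · have h3 : ∀ᵐ x : H73.Hyp.E2, ContinuousOn (fun s => v (Real.logb 2 s) x) (Set.Ioi 0) := by
      filter_upwards [h2] with x hx
      intro s hs
      refine ContinuousAt.continuousWithinAt ?_
      have hc : ContinuousAt (fun s : ℝ => Real.logb 2 s) s :=
        (Real.continuousAt_log (ne_of_gt hs)).div_const _
      exact (hx.continuousAt).comp hc
    exact h3

theorem AF_eq (β : ℝ) (f : L2Plane) : H79.RV.AF (H79.RV.lw β) f = logSum β f := by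
  unfold H79.RV.AF logSum
  refine tsum_congr fun p => tsum_congr fun r => ?_
  congr 1
  unfold H79.RV.lw
  have e1 : (2 : ℝ) ^ (((p.1 + r.1 : ℤ) : ℝ) / 2) * ‖H79.RT.cf f p r‖ = amplitude f p r := rfl
  rw [e1]
  have e2 : (2 : ℝ) ^ (-(p.1 + r.1)) * amplitude f p r ^ 2 = ‖coef f p r‖ ^ 2 := by
    unfold amplitude
    rw [mul_pow, ← Real.rpow_natCast, ← Real.rpow_mul two_pos.le, ← mul_assoc,
      ← Real.rpow_intCast, ← Real.rpow_add two_pos]
    have : ((-(p.1 + r.1) : ℤ) : ℝ) + ((p.1 + r.1 : ℤ) : ℝ) / 2 * ((2 : ℕ) : ℝ) = 0 := by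
      push_cast
      ring
    rw [this, Real.rpow_zero, one_mul]
  rw [← mul_assoc, e2]

/-- Let `lam > 1/2` and `β > 1`. There is a constant `C` such that for every square integrable
function `f` on the plane with finite `logSum β f` the hyperbolic Riesz means of `f` have a version
`w` that is continuous in the real parameter `s` for almost every `x`, converges to `f x` as
`s → ∞` for almost every `x`, and satisfies for all `t > 0` the maximal inequality
`|{x | sup_s |w s x| > t}| ≤ C t⁻² (1 + log⁺ t) logSum β f + C t⁻² ‖f‖²`. -/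
theorem result (lam : ℝ) (hlam : 1 / 2 < lam) (β : ℝ) (hβ : 1 < β) :
    ∃ C : ℝ, ∀ f : L2Plane, logSum β f ≠ ⊤ → ∃ w : ℝ → Plane → ℂ, IsVersion lam f w ∧
      (∀ᵐ x : Plane, Tendsto (fun s => w s x) atTop (𝓝 (f x))) ∧
      ∀ t : ℝ, 0 < t → volume {x : Plane | ∃ s : ℝ, 0 < s ∧ t < ‖w s x‖} ≤
        ENNReal.ofReal (C / t ^ 2 * (1 + max 0 (Real.log t))) * logSum β f +
          ENNReal.ofReal (C / t ^ 2 * ‖f‖ ^ 2) := by
  have hl0 : 0 < lam := by linarith
  obtain ⟨C1, hC1, hw⟩ := H79.RV.lw_all β hβ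
  obtain ⟨C2, hC2, hr⟩ := H79.RV.realF_all lam hl0 hlam
  refine ⟨max (288 * C1) C2, fun f hf => ?_⟩
  rw [← AF_eq] at hf
  obtain ⟨v, v1, v2, v3, v4⟩ := hr _ _ hw f hf
  refine ⟨fun s => v (Real.logb 2 s), isVersion_of hl0 f v1 v2, ?_, fun t ht => ?_⟩
  · filter_upwards [v3] with x hx
    exact hx.comp (Real.tendsto_logb_atTop one_lt_two)
  · have hsub : {x : Plane | ∃ s : ℝ, 0 < s ∧ t < ‖v (Real.logb 2 s) x‖} ⊆
        {x : H73.Hyp.E2 | ∃ s : ℝ, t < ‖v s x‖} := by
      rintro x ⟨s, -, hs⟩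
      exact ⟨Real.logb 2 s, hs⟩
    refine (measure_mono hsub).trans ((v4 t ht).trans ?_)
    have h1 : 2 * H79.RV.cw C1 (t / 12) ≤
        max (288 * C1) C2 / t ^ 2 * (1 + max 0 (Real.log t)) := by
      unfold H79.RV.cw
      have hlog : max 0 (Real.log (t / 12)) ≤ max 0 (Real.log t) :=
        max_le_max le_rfl (Real.log_le_log (by positivity) (by linarith))
      have e : 2 * (C1 / (t / 12) ^ 2 * (1 + max 0 (Real.log (t / 12)))) =
          288 * C1 / t ^ 2 * (1 + max 0 (Real.log (t / 12))) := by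
        field_simp
        ring
      rw [e]
      have h2 : 288 * C1 / t ^ 2 ≤ max (288 * C1) C2 / t ^ 2 :=
        div_le_div_of_nonneg_right (le_max_left _ _) (by positivity)
      have h3 : 0 ≤ 288 * C1 / t ^ 2 := by positivity
      have h4 : 0 ≤ max 0 (Real.log t) := le_max_left _ _
      calc 288 * C1 / t ^ 2 * (1 + max 0 (Real.log (t / 12)))
          ≤ 288 * C1 / t ^ 2 * (1 + max 0 (Real.log t)) :=
            mul_le_mul_of_nonneg_left (by linarith) h3
        _ ≤ _ := mul_le_mul_of_nonneg_right h2 (by linarith)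
    have h2 : C2 / t ^ 2 * ‖f‖ ^ 2 ≤ max (288 * C1) C2 / t ^ 2 * ‖f‖ ^ 2 :=
      mul_le_mul_of_nonneg_right (div_le_div_of_nonneg_right (le_max_right _ _) (by positivity))
        (by positivity)
    rw [AF_eq] at *
    exact add_le_add (mul_le_mul_left (ENNReal.ofReal_le_ofReal h1) _)
      (ENNReal.ofReal_le_ofReal h2)

end Pool.Agent.Results.MP_a7284e_an.ConvergenceAmplitudes
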