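import Pool.Agent.H79.RT.All

/-!
# Almost everywhere convergence of hyperbolic Riesz means for series of functions whose Haar
coefficients are dominated by those of tensor products
-/

open MeasureTheory FourierTransform Filter Topology

namespace Pool.Agent.Results.MP_a7284e_an.ConvergenceDominated

/-- The Euclidean plane `ℝ²`. It is a definition and not an abbreviation, with the standard
structures of `EuclideanSpace ℝ (Fin 2)` repeated below, only to keep printed terms short. -/
def Plane : Type := EuclideanSpace ℝ (Fin 2)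

/-- the Euclidean norm -/
noncomputable instance : NormedAddCommGroup Plane :=
  PiLp.normedAddCommGroup 2 fun _ : Fin 2 => ℝ

/-- the Euclidean inner product -/
noncomputable instance : InnerProductSpace ℝ Plane := PiLp.innerProductSpace fun _ : Fin 2 => ℝ

/-- the Borel sets -/
instance : MeasurableSpace Plane := WithLp.measurableSpace 2 (Fin 2 → ℝ)

instance : BorelSpace Plane := (inferInstance : BorelSpace (EuclideanSpace ℝ (Fin 2)))

instance : FiniteDimensional ℝ Plane :=
  (inferInstance : FiniteDimensional ℝ (EuclideanSpace ℝ (Fin 2)))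

/-- the coordinates -/
def coord (x : Plane) (i : Fin 2) : ℝ := WithLp.ofLp x i

/-- The square integrable functions on the plane. -/
abbrev L2Plane : Type := Lp ℂ 2 (volume : Measure Plane)

/-- The square integrable functions on the line. -/
abbrev L2Line : Type := Lp ℂ 2 (volume : Measure ℝ)

/-- The Fourier transform of a square integrable function. -/
noncomputable def hat (f : L2Plane) : L2Plane := (𝓕 f : L2Plane)

/-- The symbol `m(ξ) = (1 - s⁻² ξ₁² ξ₂²)_+ ^ lam` of the hyperbolic Riesz mean. -/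
noncomputable def symbol (lam s : ℝ) (ξ : Plane) : ℝ :=
  (max (1 - s⁻¹ ^ 2 * coord ξ 0 ^ 2 * coord ξ 1 ^ 2) 0) ^ lam

/-- `g` is the hyperbolic Riesz mean of `f`: the Fourier transform of `g` is the symbol times the
Fourier transform of `f`. -/
def IsMean (lam s : ℝ) (f g : L2Plane) : Prop :=
  ∀ᵐ ξ : Plane, hat g ξ = symbol lam s ξ * hat f ξ

/-- `w` is a version of the hyperbolic Riesz means of `f` that is continuous in the parameter:
`w s` represents the mean with parameter `s` for every real `s > 0`, and for almost every `x` the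
function `s ↦ w s x` is continuous on `(0, ∞)`. -/
def IsVersion (lam : ℝ) (f : L2Plane) (w : ℝ → Plane → ℂ) : Prop :=
  (∀ s, 0 < s → ∃ g : L2Plane, IsMean lam s f g ∧ ∀ᵐ x : Plane, w s x = g x) ∧
    ∀ᵐ x : Plane, ContinuousOn (fun s => w s x) (Set.Ioi 0)

/-- The Haar function of the dyadic interval `[k / 2 ^ j, (k + 1) / 2 ^ j)`, where `p = (j, k)`:
it is `2 ^ (j / 2)` on the left half, `- 2 ^ (j / 2)` on the right half and zero elsewhere. -/
noncomputable def haar (p : ℤ × ℤ) (t : ℝ) : ℝ :=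
  if (p.2 : ℝ) ≤ (2 : ℝ) ^ p.1 * t ∧ (2 : ℝ) ^ p.1 * t < p.2 + 1 / 2 then
    (2 : ℝ) ^ ((p.1 : ℝ) / 2)
  else if (p.2 : ℝ) + 1 / 2 ≤ (2 : ℝ) ^ p.1 * t ∧ (2 : ℝ) ^ p.1 * t < p.2 + 1 then
    -(2 : ℝ) ^ ((p.1 : ℝ) / 2)
  else 0

/-- The Haar coefficients of `f` are dominated by those of the tensor product of `u` and `v`:
`|⟨f, h_p ⊗ h_q⟩| ≤ |⟨u, h_p⟩| |⟨v, h_q⟩|` for all dyadic intervals `p`, `q`. -/
def Dominated (f : L2Plane) (u v : L2Line) : Prop :=
  ∀ p q : ℤ × ℤ, ‖∫ x : Plane, f x * ((haar p (coord x 0) * haar q (coord x 1) : ℝ) : ℂ)‖ ≤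
    ‖∫ t : ℝ, u t * (haar p t : ℂ)‖ * ‖∫ t : ℝ, v t * (haar q t : ℂ)‖

theorem isVersion_of {lam : ℝ} (hl0 : 0 < lam) (f : L2Plane) {v : ℝ → Plane → ℂ}
    (h1 : ∀ t, (v t : H73.Hyp.E2 → ℂ) =ᵐ[volume] H73.Hyp.Ph lam hl0 f t)
    (h2 : ∀ᵐ x : H73.Hyp.E2, Continuous fun t => v t x) :
    IsVersion lam f fun s => v (Real.logb 2 s) := by
  refine ⟨?_, ?_⟩
  · intro s hs
    refine ⟨H73.Hyp.Rz lam hl0 s f, H73.Hyp.Rz_coe hl0 s f, ?_⟩
    have h := h1 (Real.logb 2 s)
    have e : H73.Hyp.Ph lam hl0 f (Real.logb 2 s) = H73.Hyp.Rz lam hl0 s f := by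
      unfold H73.Hyp.Ph
      rw [Real.rpow_logb two_pos (by norm_num) hs]
    rw [e] at h
    exact h
  · have h3 : ∀ᵐ x : H73.Hyp.E2, ContinuousOn (fun s => v (Real.logb 2 s) x) (Set.Ioi 0) := by
      filter_upwards [h2] with x hx
      intro s hs
      refine ContinuousAt.continuousWithinAt ?_
      have hc : ContinuousAt (fun s : ℝ => Real.logb 2 s) s :=
        (Real.continuousAt_log (ne_of_gt hs)).div_const _
      exact (hx.continuousAt).comp hc
    exact h3

theorem dom_of {f : L2Plane} {u v : L2Line} (h : Dominated f u v) :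
    H79.RT.Dom f (‖u‖ * ‖v‖) := by
  obtain ⟨s1, b1⟩ := H79.RT.bes u
  obtain ⟨s2, b2⟩ := H79.RT.bes v
  refine ⟨fun p => ‖∫ t : ℝ, u t * (haar p t : ℂ)‖, fun q => ‖∫ t : ℝ, v t * (haar q t : ℂ)‖,
    fun _ => norm_nonneg _, fun _ => norm_nonneg _, s1, s2, ?_, h⟩
  rw [mul_pow]
  exact mul_le_mul b1 b2 (tsum_nonneg fun _ => by positivity) (by positivity)

/-- Let `lam > 1/2` and let `f` be the sum in `L²` of functions `F n` whose Haar coefficients are
dominated by those of the tensor products of `u n` and `v n`, where `∑ ‖u n‖ ‖v n‖ < ∞`. Then the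
hyperbolic Riesz means of `f` have a version that is continuous in the real parameter `s` for
almost every `x` and converges to `f x` as `s → ∞` for almost every `x`. -/
theorem result (lam : ℝ) (hlam : 1 / 2 < lam) (f : L2Plane) (F : ℕ → L2Plane)
    (u v : ℕ → L2Line) (hF : ∀ n, Dominated (F n) (u n) (v n))
    (hs : Summable fun n => ‖u n‖ * ‖v n‖) (hf : HasSum F f) :
    ∃ w : ℝ → Plane → ℂ, IsVersion lam f w ∧
      ∀ᵐ x : Plane, Tendsto (fun s => w s x) atTop (𝓝 (f x)) := by
  have hl0 : 0 < lam := by linarith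
  obtain ⟨C1, _, h1⟩ := H79.RT.ser_all
  obtain ⟨C2, _, h2⟩ := H79.RT.real_spec lam hl0 hlam
  obtain ⟨hc, hm⟩ := h1 F (fun n => ‖u n‖ * ‖v n‖) f (fun n => by positivity)
    (fun n => dom_of (hF n)) hs hf
  obtain ⟨w, w1, w2, w3, -⟩ := h2 f _ hm hc
  have h4 : ∀ᵐ x : H73.Hyp.E2, Tendsto (fun s => w (Real.logb 2 s) x) atTop (𝓝 (f x)) := by
    filter_upwards [w3] with x hx
    exact hx.comp (Real.tendsto_logb_atTop one_lt_two)
  exact ⟨fun s => w (Real.logb 2 s), isVersion_of hl0 f w1 w2, h4⟩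

end Pool.Agent.Results.MP_a7284e_an.ConvergenceDominated
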