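import Pool.Agent.H73.Hyp.Final

/-!
# Almost everywhere convergence of hyperbolic Riesz means under a double logarithmic condition
-/

open MeasureTheory FourierTransform Filter Topology

namespace Pool.Agent.Results.MP_a7284e_an.ConvergenceLogLog

/-- The Euclidean plane `ℝ²`. It is a definition and not an abbreviation, with the standard
structures of `EuclideanSpace ℝ (Fin 2)` repeated below, only to keep printed terms short. -/
def Plane : Type := EuclideanSpace ℝ (Fin 2)

/-- the Euclidean norm -/
noncomputable instance : NormedAddCommGroup Plane :=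
  PiLp.normedAddCommGroup 2 fun _ : Fin 2 => ℝ

/-- the Euclidean inner product -/
noncomputable instance : InnerProductSpace ℝ Plane := PiLp.innerProductSpace fun _ : Fin 2 => ℝ

/-- the Borel sets -/
instance : MeasurableSpace Plane := WithLp.measurableSpace 2 (Fin 2 → ℝ)

instance : BorelSpace Plane := (inferInstance : BorelSpace (EuclideanSpace ℝ (Fin 2)))

instance : FiniteDimensional ℝ Plane :=
  (inferInstance : FiniteDimensional ℝ (EuclideanSpace ℝ (Fin 2)))

/-- the coordinates -/
def coord (x : Plane) (i : Fin 2) : ℝ := WithLp.ofLp x i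

/-- The square integrable functions on the plane. -/
abbrev L2Plane : Type := Lp ℂ 2 (volume : Measure Plane)

/-- The Fourier transform of a square integrable function. -/
noncomputable def hat (f : L2Plane) : L2Plane := (𝓕 f : L2Plane)

/-- The symbol `m(ξ) = (1 - s⁻² ξ₁² ξ₂²)_+ ^ lam` of the hyperbolic Riesz mean. -/
noncomputable def symbol (lam s : ℝ) (ξ : Plane) : ℝ :=
  (max (1 - s⁻¹ ^ 2 * coord ξ 0 ^ 2 * coord ξ 1 ^ 2) 0) ^ lam

/-- `g` is the hyperbolic Riesz mean of `f`: the Fourier transform of `g` is the symbol times the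
Fourier transform of `f`. -/
def IsMean (lam s : ℝ) (f g : L2Plane) : Prop :=
  ∀ᵐ ξ : Plane, hat g ξ = symbol lam s ξ * hat f ξ

/-- `u` is a version of the hyperbolic Riesz means of `f` that is continuous in the parameter:
`u s` represents the mean with parameter `s` for every real `s > 0`, and for almost every `x` the
function `s ↦ u s x` is continuous on `(0, ∞)`. -/
def IsVersion (lam : ℝ) (f : L2Plane) (u : ℝ → Plane → ℂ) : Prop :=
  (∀ s, 0 < s → ∃ g : L2Plane, IsMean lam s f g ∧ ∀ᵐ x : Plane, u s x = g x) ∧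
    ∀ᵐ x : Plane, ContinuousOn (fun s => u s x) (Set.Ioi 0)

/-- The square of the Fourier transform of `f` is integrable against
`log log (exp (exp 1) + |ξ₁ ξ₂|)`. -/
def LogLogIntegrable (f : L2Plane) : Prop :=
  Integrable fun ξ : Plane =>
    Real.log (Real.log (Real.exp (Real.exp 1) + |coord ξ 0 * coord ξ 1|)) * ‖hat f ξ‖ ^ 2

theorem isVersion_of {lam : ℝ} (hl0 : 0 < lam) (f : L2Plane) {v : ℝ → Plane → ℂ}
    (h1 : ∀ t, (v t : H73.Hyp.E2 → ℂ) =ᵐ[volume] H73.Hyp.Ph lam hl0 f t)
    (h2 : ∀ᵐ x : H73.Hyp.E2, Continuous fun t => v t x) :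
    IsVersion lam f fun s => v (Real.logb 2 s) := by
  refine ⟨?_, ?_⟩
  · intro s hs
    refine ⟨H73.Hyp.Rz lam hl0 s f, H73.Hyp.Rz_coe hl0 s f, ?_⟩
    have h := h1 (Real.logb 2 s)
    have e : H73.Hyp.Ph lam hl0 f (Real.logb 2 s) = H73.Hyp.Rz lam hl0 s f := by
      unfold H73.Hyp.Ph
      rw [Real.rpow_logb two_pos (by norm_num) hs]
    rw [e] at h
    exact h
  · have h3 : ∀ᵐ x : H73.Hyp.E2, ContinuousOn (fun s => v (Real.logb 2 s) x) (Set.Ioi 0) := by
      filter_upwards [h2] with x hx
      intro s hs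
      refine ContinuousAt.continuousWithinAt ?_
      have hc : ContinuousAt (fun s : ℝ => Real.logb 2 s) s :=
        (Real.continuousAt_log (ne_of_gt hs)).div_const _
      exact (hx.continuousAt).comp hc
    exact h3

/-- If `lam > 1/2` and the square of the Fourier transform of `f` is integrable against
`log log (exp (exp 1) + |ξ₁ ξ₂|)`, then the hyperbolic Riesz means of `f` have a version that is
continuous in the real parameter `s` for almost every `x` and converges to `f x` as `s → ∞` for
almost every `x`. -/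
theorem result (lam : ℝ) (hlam : 1 / 2 < lam) (f : L2Plane) (hf : LogLogIntegrable f) :
    ∃ u : ℝ → Plane → ℂ, IsVersion lam f u ∧
      ∀ᵐ x : Plane, Tendsto (fun s => u s x) atTop (𝓝 (f x)) := by
  have hl0 : 0 < lam := by linarith
  obtain ⟨v, h1, h2, h3⟩ := H73.Hyp.Rz_ae hlam hl0 f hf
  refine ⟨fun s => v (Real.logb 2 s), isVersion_of hl0 f h1 h2, ?_⟩
  have h4 : ∀ᵐ x : H73.Hyp.E2, Tendsto (fun s => v (Real.logb 2 s) x) atTop (𝓝 (f x)) := by
    filter_upwards [h3] with x hx
    exact hx.comp (Real.tendsto_logb_atTop one_lt_two)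
  exact h4

end Pool.Agent.Results.MP_a7284e_an.ConvergenceLogLog
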