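import Pool.Agent.H73.Hyp.Final

/-!
# The maximal function of hyperbolic Riesz means over `N` dyadic blocks of parameters
-/

open MeasureTheory FourierTransform Filter Topology

namespace Pool.Agent.Results.MP_a7284e_an.MaximalLog

/-- The Euclidean plane `ℝ²`. It is a definition and not an abbreviation, with the standard
structures of `EuclideanSpace ℝ (Fin 2)` repeated below, only to keep printed terms short. -/
def Plane : Type := EuclideanSpace ℝ (Fin 2)

/-- the Euclidean norm -/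
noncomputable instance : NormedAddCommGroup Plane :=
  PiLp.normedAddCommGroup 2 fun _ : Fin 2 => ℝ

/-- the Euclidean inner product -/
noncomputable instance : InnerProductSpace ℝ Plane := PiLp.innerProductSpace fun _ : Fin 2 => ℝ

/-- the Borel sets -/
instance : MeasurableSpace Plane := WithLp.measurableSpace 2 (Fin 2 → ℝ)

instance : BorelSpace Plane := (inferInstance : BorelSpace (EuclideanSpace ℝ (Fin 2)))

instance : FiniteDimensional ℝ Plane :=
  (inferInstance : FiniteDimensional ℝ (EuclideanSpace ℝ (Fin 2)))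

/-- the coordinates -/
def coord (x : Plane) (i : Fin 2) : ℝ := WithLp.ofLp x i

/-- The square integrable functions on the plane. -/
abbrev L2Plane : Type := Lp ℂ 2 (volume : Measure Plane)

/-- The Fourier transform of a square integrable function. -/
noncomputable def hat (f : L2Plane) : L2Plane := (𝓕 f : L2Plane)

/-- The symbol `m(ξ) = (1 - s⁻² ξ₁² ξ₂²)_+ ^ lam` of the hyperbolic Riesz mean. -/
noncomputable def symbol (lam s : ℝ) (ξ : Plane) : ℝ :=
  (max (1 - s⁻¹ ^ 2 * coord ξ 0 ^ 2 * coord ξ 1 ^ 2) 0) ^ lam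

/-- `g` is the hyperbolic Riesz mean of `f`: the Fourier transform of `g` is the symbol times the
Fourier transform of `f`. -/
def IsMean (lam s : ℝ) (f g : L2Plane) : Prop :=
  ∀ᵐ ξ : Plane, hat g ξ = symbol lam s ξ * hat f ξ

/-- `u` is a version of the hyperbolic Riesz means of `f` that is continuous in the parameter:
`u s` represents the mean with parameter `s` for every real `s > 0`, and for almost every `x` the
function `s ↦ u s x` is continuous on `(0, ∞)`. -/
def IsVersion (lam : ℝ) (f : L2Plane) (u : ℝ → Plane → ℂ) : Prop :=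
  (∀ s, 0 < s → ∃ g : L2Plane, IsMean lam s f g ∧ ∀ᵐ x : Plane, u s x = g x) ∧
    ∀ᵐ x : Plane, ContinuousOn (fun s => u s x) (Set.Ioi 0)

/-- `G` is an integrable function that bounds the square of the maximal function of `u` over the
real parameters in the dyadic intervals `[2 ^ k, 2 ^ (k + 1)]`, `k ∈ K`. -/
def Majorizes (G : Plane → ℝ) (K : Finset ℤ) (u : ℝ → Plane → ℂ) : Prop :=
  Integrable G ∧
    ∀ᵐ x : Plane, ∀ k ∈ K, ∀ s : ℝ, (2 : ℝ) ^ k ≤ s → s ≤ (2 : ℝ) ^ (k + 1) → ‖u s x‖ ^ 2 ≤ G x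

theorem isVersion_of {lam : ℝ} (hl0 : 0 < lam) (f : L2Plane) {v : ℝ → Plane → ℂ}
    (h1 : ∀ t, (v t : H73.Hyp.E2 → ℂ) =ᵐ[volume] H73.Hyp.Ph lam hl0 f t)
    (h2 : ∀ᵐ x : H73.Hyp.E2, Continuous fun t => v t x) :
    IsVersion lam f fun s => v (Real.logb 2 s) := by
  refine ⟨?_, ?_⟩
  · intro s hs
    refine ⟨H73.Hyp.Rz lam hl0 s f, H73.Hyp.Rz_coe hl0 s f, ?_⟩
    have h := h1 (Real.logb 2 s)
    have e : H73.Hyp.Ph lam hl0 f (Real.logb 2 s) = H73.Hyp.Rz lam hl0 s f := by
      unfold H73.Hyp.Ph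
      rw [Real.rpow_logb two_pos (by norm_num) hs]
    rw [e] at h
    exact h
  · have h3 : ∀ᵐ x : H73.Hyp.E2, ContinuousOn (fun s => v (Real.logb 2 s) x) (Set.Ioi 0) := by
      filter_upwards [h2] with x hx
      intro s hs
      refine ContinuousAt.continuousWithinAt ?_
      have hc : ContinuousAt (fun s : ℝ => Real.logb 2 s) s :=
        (Real.continuousAt_log (ne_of_gt hs)).div_const _
      exact (hx.continuousAt).comp hc
    exact h3

/-- For `lam > 1/2` there is a constant `C` such that for every `f` in `L²` the hyperbolic Riesz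
means of `f` have a version, continuous in the parameter for almost every point, whose maximal
function over any `N` dyadic intervals `[2 ^ k, 2 ^ (k + 1)]`, `k ∈ K`, of real parameters has
`L²` norm at most `√(C (1 + log N)) ‖f‖`. -/
theorem result (lam : ℝ) (hlam : 1 / 2 < lam) :
    ∃ C : ℝ, ∀ f : L2Plane, ∃ u : ℝ → Plane → ℂ, IsVersion lam f u ∧
      ∀ K : Finset ℤ, K.Nonempty → ∃ G : Plane → ℝ, Majorizes G K u ∧
        ∫ x, G x ≤ C * (1 + Real.log K.card) * ‖f‖ ^ 2 := by
  have hl0 : 0 < lam := by linarith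
  obtain ⟨C, -, hv⟩ := H73.Hyp.real_max hlam hl0
  refine ⟨C, fun f => ?_⟩
  obtain ⟨v, h1, h2, h3⟩ := hv f
  refine ⟨fun s => v (Real.logb 2 s), isVersion_of hl0 f h1 h2, ?_⟩
  intro K hK
  obtain ⟨G, g1, g2, g3⟩ := h3 K hK
  have h5 : ∀ᵐ x : H73.Hyp.E2, ∀ k ∈ K, ∀ s : ℝ, (2 : ℝ) ^ k ≤ s → s ≤ (2 : ℝ) ^ (k + 1) →
      ‖v (Real.logb 2 s) x‖ ^ 2 ≤ G x := by
    filter_upwards [g2] with x hx k hk s hs hs'
    have hp : (0 : ℝ) < (2 : ℝ) ^ k := by positivity
    have hs0 : 0 < s := hp.trans_le hs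
    refine hx k hk _ ?_ ?_
    · rw [Real.le_logb_iff_rpow_le one_lt_two hs0, Real.rpow_intCast]
      exact hs
    · have h4 : (k : ℝ) + 1 = ((k + 1 : ℤ) : ℝ) := by push_cast; ring
      rw [h4, Real.logb_le_iff_le_rpow one_lt_two hs0, Real.rpow_intCast]
      exact hs'
  exact ⟨G, ⟨g1, h5⟩, g3⟩

end Pool.Agent.Results.MP_a7284e_an.MaximalLog
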